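import Mathlib
import Pool.Agent.H61.LdC

set_option autoImplicit false

namespace Pool.Agent.Results.MP_7ad892_an.Yes

open Pool.Agent.H61.LdDefs Pool.Agent.H61.Ld
open scoped Classical ZeroAtInfty

theorem result {Ω : Type} [TopologicalSpace Ω] [LocallyCompactSpace Ω] [T2Space Ω]
    (σ : CocompactMap Ω Ω) {B : Type} [NonUnitalCStarAlgebra B]
    (π : C₀(Ω, ℂ) →⋆ₙₐ[ℂ] B) (t : C₀(Ω, ℂ) →ₗ[ℂ] B) (h : IsUniversal σ π t)
    (δ : tensorAlg π t →L[ℂ] tensorAlg π t) (hδ : ApproxLocal δ) : IsDer δ := by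
  intro a b
  choose Φ p1 p2 using fun x => h.2 _ _ _ (orb σ x)
  choose γ g1 g2 using fun θ : AddCircle (1 : ℝ) => gauge_ex h (fourier 1 θ) (Circle.norm_coe _)
  have hγ : ∀ θ n F a, Mon σ π t n F a → γ θ a = fourier n θ • a := fun θ n F a ha => by
    rw [ha.gauge (g1 θ) (g2 θ)]
    simp [AddCircle.toCircle_nsmul]
  let c : Ω → Ω → B →L[ℂ] ℂ := fun y' y => coef σ y' y ∘L clm (Φ y)
  have hc : ∀ y' y n F a, Mon σ π t n F a →
      c y' y a = if σ^[n] y = y' then F y * (1 / 2) ^ n else 0 := fun y' y n F a ha =>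
    coef_eq σ y' y (by simpa using ha.orb (p1 y) (p2 y) 0)
  rw [← sub_eq_zero]
  refine Subtype.ext (sep h.1 γ hγ (fun n y => (2 : ℂ) ^ n • c (σ^[n] y) y) (fun n => 2 ^ n * ‖g‖)
    (fun n y a => ?_) (fun n => by positivity) (fun n y F a ha => ?_) (Subtype.prop _)
    fun n y θ => ?_)
  · rw [smul_apply, norm_smul, mul_assoc, norm_pow, Complex.norm_ofNat]
    gcongr
    refine (coef_le σ _ _ _).trans ?_
    gcongr
    exact NonUnitalStarAlgHom.norm_apply_le (Φ y) a
  · simp [hc _ _ _ _ _ ha]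
    field_simp
  obtain ⟨T, t1, t2, t3⟩ := exists_T σ y n
  let R : B →ₗ[ℂ] Matrix T T ℂ :=
    { toFun a := Matrix.of fun u' u => c u' u (γ θ a)
      map_add' a b := by ext; simp
      map_smul' c a := by ext; simp }
  have r1 : Continuous R := continuous_matrix fun u' u => (c u' u).continuous.comp (clm (γ θ)).continuous
  have r2 : ∀ a ∈ tensorAlg π t, ∀ b ∈ tensorAlg π t, R (a * b) = R a * R b := fun a ha b hb => by
    refine dens h.1 (fun a => R (a * b) = R a * R b) (isClosed_eq (by fun_prop) (by fun_prop))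
      (fun n F a ha => ?_) (by simp) (fun a b h1 h2 => by simp only [add_mul, map_add, h1, h2])
      (fun c a h1 => by simp only [smul_mul_assoc, map_smul, h1]) ha
    refine dens h.1 (fun b => R (a * b) = R a * R b) (isClosed_eq (by fun_prop) (by fun_prop))
      (fun m G b hb => ?_) (by simp) (fun a b h1 h2 => by simp only [mul_add, map_add, h1, h2])
      (fun c a h1 => by simp only [mul_smul_comm, map_smul, h1]) hb
    ext u' u
    have e1 : c u' u (a * b) = if σ^[m + n] u = u' then G u * F (σ^[m] u) * (1 / 2) ^ (m + n)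
        else 0 := coef_eq σ _ _ (by
      simp [ha.orb (p1 _) (p2 _), hb.orb (p1 _) (p2 _), smul_smul])
    simp only [R, LinearMap.coe_mk, AddHom.coe_mk, Matrix.of_apply, Matrix.mul_apply, map_mul,
      hγ _ _ _ _ ha, hγ _ _ _ _ hb, smul_mul_assoc, mul_smul_comm, map_smul, e1, hc _ _ _ _ _ ha,
      hc _ _ _ _ _ hb, smul_eq_mul, add_comm m n, Function.iterate_add_apply]
    by_cases hu : σ^[m] u ∈ T
    · rw [Finset.sum_eq_single ⟨_, hu⟩ (fun v _ hv => by
        rw [if_neg (show ¬ σ^[m] u = v from fun e => hv (Subtype.ext e.symm))]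
        simp) (by simp)]
      rw [if_pos rfl]
      split_ifs <;> ring
    · rw [if_neg (show ¬ σ^[n] (σ^[m] u) = u' from fun e => hu (t3 u u.2 n m (e ▸ u'.2))), Finset.sum_eq_zero fun v _ => by
        rw [if_neg (show ¬ σ^[m] u = v from fun e => hu (e ▸ v.2))]
        simp]
      simp
  choose q hq using bump T
  let ρ : tensorAlg π t →ₗ[ℂ] Matrix T T ℂ :=
    { toFun a := R a
      map_add' a b := R.map_add _ _
      map_smul' c a := R.map_smul _ _ }
  have := mat_der ρ (r1.comp continuous_subtype_val)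
    (fun a b => r2 _ a.2 _ b.2) (fun u : T => ⟨π (q u), subset_closure
      (NonUnitalAlgebra.subset_adjoin ℂ (Or.inl ⟨_, rfl⟩))⟩) (fun u => by
        ext v' v
        have := hc v' v _ _ _ (Mon.zero (q u))
        simp only [Function.iterate_zero, id, hq u v v.2, pow_zero, mul_one] at this
        simp only [ρ, R, LinearMap.coe_mk, AddHom.coe_mk,
          Matrix.of_apply, g1, this, Matrix.single_apply, Subtype.ext_iff]
        grind) hδ a b
  have := congrFun (congrFun this ⟨_, t2⟩) ⟨_, t1⟩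
  rw [smul_apply]
  exact smul_eq_zero_of_right _ this

end Pool.Agent.Results.MP_7ad892_an.Yes
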